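import Mathlib
import Pool.Agent.T9h47.WH.Defs

/-!
# How much a network on graphs breaks the symmetry of the vertices: definitions
-/

set_option autoImplicit false

namespace Pool.Agent.T9h47.WX

open Pool.Agent.T9h47.WH

/-- What the gate `g` sees on the input `x`: its own value and, for each role `r`, the multiset of
the values of its children in the role `r`. -/
noncomputable def view {K I : Type} (C : Net K I) (g : C.Gate) (x : I → K) :
    K × (ℕ → Multiset K) :=
  (C.val x g, fun r => ((C.kids g).filter (fun p => p.1 = r)).val.map (fun p => C.val x p.2))

/-- The views of the gates of `C` after renaming the vertices in `H`: all functions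
`G ↦ view g (σ G)` on the graphs `G` with the vertex set `V`, where `g` is a gate and `σ` is a
permutation of `V` which fixes all vertices outside `H`. -/
def views {K V : Type} [Fintype V] [DecidableEq V] (H : Finset V) (C : Net K (Sym2 V))
    (b₀ b₁ : K) : Set (SimpleGraph V → K × (ℕ → Multiset K)) :=
  {L | ∃ g, ∃ σ : Equiv.Perm V, (∀ v, v ∉ H → σ v = v) ∧
    L = fun G => view C g (graphInput b₀ b₁ (G.map σ.toEmbedding))}

end Pool.Agent.T9h47.WX
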