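import Mathlib
import Pool.Agent.T9h47.WH.Graph
import Pool.Agent.T9h47.WX.Defs

/-!
# The stabilisers of views of networks on graphs
-/

set_option autoImplicit false
set_option linter.unusedSectionVars false

namespace Pool.Agent.T9h47.WX

open Finset Equiv Equiv.Perm
open Pool.Agent.T9h47.SF Pool.Agent.T9h47.WH

section act

variable {V : Type}

/-- renaming the vertices of a graph -/
def ac (σ : Perm V) (G : SimpleGraph V) : SimpleGraph V := G.map σ.toEmbedding

theorem ac_adj (σ : Perm V) (G : SimpleGraph V) (a b : V) :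
    (ac σ G).Adj a b ↔ G.Adj (σ⁻¹ a) (σ⁻¹ b) := by
  have h := SimpleGraph.map_adj_apply (G := G) (f := σ.toEmbedding) (a := σ⁻¹ a) (b := σ⁻¹ b)
  have h1 : σ.toEmbedding (σ⁻¹ a) = a := σ.apply_symm_apply a
  have h2 : σ.toEmbedding (σ⁻¹ b) = b := σ.apply_symm_apply b
  rw [h1, h2] at h
  exact h

theorem ac_one (G : SimpleGraph V) : ac 1 G = G := by
  ext a b
  rw [ac_adj]
  rfl

theorem ac_mul (σ τ : Perm V) (G : SimpleGraph V) : ac (σ * τ) G = ac σ (ac τ G) := by
  ext a b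
  rw [ac_adj, ac_adj, ac_adj, mul_inv_rev]
  rfl

end act

section stab

variable {V T : Type} (L : SimpleGraph V → T)

/-- the permutations which do not change a function -/
def St : Subgroup (Perm V) where
  carrier := {σ | ∀ G, L (ac σ G) = L G}
  one_mem' := fun G => by rw [ac_one]
  mul_mem' := by
    intro σ τ h1 h2 G
    rw [ac_mul, h1, h2]
  inv_mem' := by
    intro σ h G
    have h1 := h (ac σ⁻¹ G)
    rw [← ac_mul, mul_inv_cancel, ac_one] at h1
    exact h1.symm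

theorem mem_St {σ : Perm V} : σ ∈ St L ↔ ∀ G, L (ac σ G) = L G := Iff.rfl

variable [Fintype V] [DecidableEq V]

/-- the sharp support theorem for functions -/
theorem exists_supp (H : Finset V) (F : Set (SimpleGraph V → T)) (hfin : F.Finite)
    (hF : ∀ σ : Perm V, (∀ v, v ∉ H → σ v = v) → (fun G => L (ac σ G)) ∈ F) (k : ℕ)
    (hk : F.ncard < H.card.choose k) (hH : 2 ^ (20 * k + 6) ≤ H.card) :
    ∃ D ⊆ H, D.card < k ∧ ∀ σ, EvOn (H \ D) σ → ∀ G, L (ac σ G) = L G := by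
  classical
  have := hfin.to_subtype
  let _ : Fintype F := Fintype.ofFinite F
  have hcard : Fintype.card F = F.ncard := by
    rw [← Nat.card_coe_set_eq, Nat.card_eq_fintype_card]
  have h0 : (fun G => L (ac 1 G)) ∈ F := hF 1 (fun _ _ => rfl)
  obtain ⟨c, hc⟩ : ∃ c : Perm V → F, ∀ σ : Perm V, (∀ v, v ∉ H → σ v = v) →
      ∀ G, (c σ).1 G = L (ac σ⁻¹ G) := by
    have h1 : ∀ σ : Perm V, ∃ c : F, (∀ v, v ∉ H → σ v = v) → ∀ G, c.1 G = L (ac σ⁻¹ G) := by
      intro σ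
      by_cases h : ∀ v, v ∉ H → σ v = v
      · refine ⟨⟨_, hF σ⁻¹ ?_⟩, fun _ G => rfl⟩
        intro v hv
        rw [Equiv.Perm.inv_eq_iff_eq]
        exact (h v hv).symm
      · exact ⟨⟨_, h0⟩, fun h' => absurd h' h⟩
    choose c hc using h1
    exact ⟨c, hc⟩
  obtain ⟨D, h1, h2, h3⟩ := support_sharp (St L) H c (by
    intro σ τ hσ hτ h G
    have h4 := hc σ hσ (ac τ G)
    have h5 := hc τ hτ (ac τ G)
    rw [h, h5, ← ac_mul, ← ac_mul, inv_mul_cancel, ac_one] at h4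
    exact h4.symm) (k * (Nat.log 2 H.card + 1)) k (by
      rw [hcard]
      exact card_lt_pow hk) (log_bound k H.card hH) (by rw [hcard]; exact hk)
  exact ⟨D, h1, h2, fun σ hσ => h3 σ hσ⟩

end stab

section views

variable {V K : Type} [Fintype V] [DecidableEq V] (H : Finset V) (C : Net K (Sym2 V)) (b₀ b₁ : K)

theorem views_finite : (views H C b₀ b₁).Finite := by
  let _ := C.fin
  have h1 : views H C b₀ b₁ ⊆ Set.range (fun (p : C.Gate × Equiv.Perm V)
      (G : SimpleGraph V) => view C p.1 (graphInput b₀ b₁ (G.map p.2.toEmbedding))) := by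
    rintro L ⟨g, σ, _, rfl⟩
    exact ⟨(g, σ), rfl⟩
  exact (Set.finite_range _).subset h1

/-- the view of a gate -/
noncomputable def vw (g : C.Gate) (G : SimpleGraph V) : K × (ℕ → Multiset K) :=
  view C g (graphInput b₀ b₁ G)

/-- supports of gates -/
theorem exists_supp_view (k : ℕ) (hk : (views H C b₀ b₁).ncard < H.card.choose k)
    (hH : 2 ^ (20 * k + 6) ≤ H.card) (g : C.Gate) :
    ∃ D ⊆ H, D.card < k ∧ ∀ σ, EvOn (H \ D) σ → ∀ G, vw C b₀ b₁ g (ac σ G) = vw C b₀ b₁ g G :=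
  exists_supp (vw C b₀ b₁ g) H (views H C b₀ b₁) (views_finite H C b₀ b₁)
    (fun σ hσ => ⟨g, σ, hσ, rfl⟩) k hk hH

/-- input gates are supported by their edges -/
theorem input_supp {g : C.Gate} {a b : V} (hl : C.lab g = Sum.inl s(a, b)) (hab : a ≠ b)
    (hb : b₀ ≠ b₁) {D : Finset V} (hU : 4 ≤ (H \ D).card)
    (hD : ∀ σ, EvOn (H \ D) σ → ∀ G, vw C b₀ b₁ g (ac σ G) = vw C b₀ b₁ g G) :
    (a ∈ H → a ∈ D) ∧ (b ∈ H → b ∈ D) := by
  classical
  have h1 : a ∉ H \ D ∧ b ∉ H \ D := by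
    apply fixed_pair hU
    intro σ hσ
    have h2 := congrArg Prod.fst (hD σ hσ (ac σ⁻¹ (SimpleGraph.fromEdgeSet {s(a, b)})))
    rw [← ac_mul, mul_inv_cancel, ac_one] at h2
    have h3 : C.val (graphInput b₀ b₁ (SimpleGraph.fromEdgeSet {s(a, b)})) g =
      C.val (graphInput b₀ b₁ (ac σ⁻¹ (SimpleGraph.fromEdgeSet {s(a, b)}))) g := h2
    rw [C.val_inl _ g _ hl, C.val_inl _ g _ hl] at h3
    unfold graphInput at h3
    have h4 : s(a, b) ∈ (SimpleGraph.fromEdgeSet {s(a, b)}).edgeSet := by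
      rw [SimpleGraph.mem_edgeSet, SimpleGraph.fromEdgeSet_adj]
      exact ⟨rfl, hab⟩
    rw [if_pos h4] at h3
    have h5 : s(a, b) ∈ (ac σ⁻¹ (SimpleGraph.fromEdgeSet {s(a, b)})).edgeSet := by
      by_contra h5
      rw [if_neg h5] at h3
      exact hb h3.symm
    rw [SimpleGraph.mem_edgeSet, ac_adj, inv_inv, SimpleGraph.fromEdgeSet_adj] at h5
    exact h5.1
  constructor
  · intro h
    by_contra h'
    exact h1.1 (mem_sdiff.2 ⟨h, h'⟩)
  · intro h
    by_contra h'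
    exact h1.2 (mem_sdiff.2 ⟨h, h'⟩)

end views

end Pool.Agent.T9h47.WX
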