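import Mathlib
import Pool.Agent.T9h47.WX.Stab

/-!
# The number of views of a network
-/

set_option autoImplicit false
set_option linter.unusedSectionVars false

namespace Pool.Agent.T9h47.WX

open Finset
open Pool.Agent.T9h47.WH

/-- views and automorphisms -/
theorem view_aut {K I : Type} (C : Net K I) {π : I → I} {α : Equiv.Perm C.Gate}
    (hα : C.IsAut π α) (g : C.Gate) (x : I → K) : view C (α g) x = view C g (x ∘ π) := by
  classical
  have hval : ∀ g, C.val x (α g) = C.val (x ∘ π) g := by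
    intro g
    exact hα.val _ (C.rank g + 1) g (Nat.lt_succ_self _)
  unfold view
  rw [hval]
  congr 1
  funext r
  have h1 : (C.kids (α g)).filter (fun p => p.1 = r) =
      ((C.kids g).filter (fun p => p.1 = r)).map
        ⟨fun p => (p.1, α p.2), fun p q hpq => by
          have h2 := Prod.ext_iff.1 hpq
          exact Prod.ext h2.1 (α.injective h2.2)⟩ := by
    ext ⟨r', j⟩
    rw [mem_filter, mem_map]
    constructor
    · rintro ⟨hk, hr⟩
      refine ⟨(r', α⁻¹ j), ?_, ?_⟩
      · rw [mem_filter]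
        refine ⟨?_, hr⟩
        rw [← hα.kids, papply_inv]
        exact hk
      · show (r', α (α⁻¹ j)) = (r', j)
        rw [papply_inv]
    · rintro ⟨⟨r'', j'⟩, hk', heq⟩
      rw [mem_filter] at hk'
      have h2 := Prod.ext_iff.1 heq
      have h3 : r'' = r' := h2.1
      have h4 : α j' = j := h2.2
      subst h3
      subst h4
      exact ⟨(hα.kids g r'' j').2 hk'.1, hk'.2⟩
  rw [h1, Finset.map_val, Multiset.map_map]
  refine Multiset.map_congr rfl ?_
  rintro ⟨r', j⟩ _
  exact hval j

section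

variable {V K : Type} [Fintype V] [DecidableEq V] (H : Finset V) (C : Net K (Sym2 V)) (b₀ b₁ : K)

theorem input_ren (σ : Equiv.Perm V) (G : SimpleGraph V) :
    graphInput b₀ b₁ (G.map σ.toEmbedding) = graphInput b₀ b₁ G ∘ Sym2.map ⇑(σ⁻¹) := by
  classical
  funext i
  induction i with
  | _ a b =>
    have h : s(a, b) ∈ (G.map σ.toEmbedding).edgeSet ↔ s(σ⁻¹ a, σ⁻¹ b) ∈ G.edgeSet :=
      ac_adj σ G a b
    have h0 : (Sym2.map ⇑(σ⁻¹)) s(a, b) = s(σ⁻¹ a, σ⁻¹ b) := rfl
    rw [Function.comp_apply, h0]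
    unfold graphInput
    by_cases h1 : s(σ⁻¹ a, σ⁻¹ b) ∈ G.edgeSet
    · rw [if_pos h1, if_pos (h.2 h1)]
    · rw [if_neg h1, if_neg (fun h2 => h1 (h.1 h2))]

/-- a symmetric network has at most as many views as gates -/
theorem views_symm (hS : SymOn C H) :
    (views H C b₀ b₁).ncard ≤ @Fintype.card C.Gate C.fin := by
  classical
  let _ := C.fin
  have h1 : views H C b₀ b₁ ⊆ Set.range (fun (g : C.Gate) (G : SimpleGraph V) =>
      view C g (graphInput b₀ b₁ G)) := by
    rintro L ⟨g, σ, hσ, rfl⟩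
    have hσ' : ∀ u, u ∉ H → σ⁻¹ u = u := by
      intro u hu
      rw [Equiv.Perm.inv_eq_iff_eq]
      exact (hσ u hu).symm
    obtain ⟨α, hα⟩ := hS σ⁻¹ hσ'
    refine ⟨α g, ?_⟩
    funext G
    show view C (α g) (graphInput b₀ b₁ G) = view C g (graphInput b₀ b₁ (G.map σ.toEmbedding))
    rw [view_aut C hα, input_ren]
  refine (Set.ncard_le_ncard h1 (Set.finite_range _)).trans ?_
  rw [← Nat.card_coe_set_eq, ← Nat.card_eq_fintype_card]
  exact Nat.card_le_card_of_surjective (Set.rangeFactorization _)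
    Set.rangeFactorization_surjective

/-- a network has at most `|H|!` times as many views as gates -/
theorem views_le :
    (views H C b₀ b₁).ncard ≤ H.card.factorial * @Fintype.card C.Gate C.fin := by
  classical
  let _ := C.fin
  have h1 : views H C b₀ b₁ ⊆ Set.range
      (fun (p : {σ : Equiv.Perm V // ∀ u, ¬ u ∈ H → σ u = u} × C.Gate)
        (G : SimpleGraph V) => view C p.2 (graphInput b₀ b₁ (G.map p.1.1.toEmbedding))) := by
    rintro L ⟨g, σ, hσ, rfl⟩
    exact ⟨(⟨σ, hσ⟩, g), rfl⟩
  refine (Set.ncard_le_ncard h1 (Set.finite_range _)).trans ?_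
  have h2 : H.card.factorial = Nat.card {σ : Equiv.Perm V // ∀ u, ¬ u ∈ H → σ u = u} := by
    rw [← Nat.card_congr (Equiv.Perm.subtypeEquivSubtypePerm (fun u => u ∈ H)),
      Nat.card_eq_fintype_card, Fintype.card_perm, Fintype.card_coe]
  rw [← Nat.card_coe_set_eq, ← Nat.card_eq_fintype_card, h2, ← Nat.card_prod]
  exact Nat.card_le_card_of_surjective (Set.rangeFactorization _)
    Set.rangeFactorization_surjective

end

end Pool.Agent.T9h47.WX
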