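import Mathlib
import Pool.Agent.T9h47.WH.DomFinal
import Pool.Agent.T9h47.WX.Stab

/-!
# The group of the shifts of the instances
-/

set_option autoImplicit false
set_option linter.unusedSectionVars false

namespace Pool.Agent.T9h47.WX

open Finset Equiv Equiv.Perm
open Pool.Agent.T9h47.SF Pool.Agent.T9h47.WH

section sgn

variable {X : Type} [Fintype X] [DecidableEq X]

/-- addition of a vector on a half space -/
def half (a : X → ZMod 2) (l : (X → ZMod 2) → ZMod 2) (hl : ∀ f, l (f + a) = l f) :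
    Perm (X → ZMod 2) :=
  Function.Involutive.toPerm (fun f => if l f = 0 then f + a else f) (by
    intro f
    by_cases h : l f = 0
    · show (if l (if l f = 0 then f + a else f) = 0 then
        (if l f = 0 then f + a else f) + a else (if l f = 0 then f + a else f)) = f
      rw [if_pos h, if_pos (by rw [hl, h])]
      exact add_add_self f a
    · show (if l (if l f = 0 then f + a else f) = 0 then
        (if l f = 0 then f + a else f) + a else (if l f = 0 then f + a else f)) = f
      rw [if_neg h, if_neg h])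

theorem half_apply (a : X → ZMod 2) (l : (X → ZMod 2) → ZMod 2) (hl : ∀ f, l (f + a) = l f)
    (f : X → ZMod 2) : half a l hl f = if l f = 0 then f + a else f := rfl

theorem sign_half (a b : X → ZMod 2) (l : (X → ZMod 2) → ZMod 2) (hl : ∀ f, l (f + a) = l f)
    (hb : ∀ f, l (f + b) = l f + 1) : sign (Equiv.addRight a : Perm (X → ZMod 2)) = 1 := by
  have h1 : (Equiv.addRight a : Perm (X → ZMod 2)) =
      half a l hl * ((Equiv.addRight b : Perm (X → ZMod 2)) * half a l hl *
        (Equiv.addRight b : Perm (X → ZMod 2))⁻¹) := by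
    ext1 f
    have hinv : ∀ f, ((Equiv.addRight b : Perm (X → ZMod 2))⁻¹) f = f + b := by
      intro f
      rw [Equiv.Perm.inv_eq_iff_eq]
      show f = f + b + b
      rw [add_add_self]
    show f + a = half a l hl ((half a l hl (((Equiv.addRight b : Perm (X → ZMod 2))⁻¹) f)) + b)
    rw [hinv, half_apply, half_apply]
    have h01 : ∀ x : ZMod 2, x = 0 ∨ x = 1 := by decide
    rcases h01 (l f) with h | h
    · have h5 : l (f + b) ≠ 0 := by rw [hb, h]; decide
      rw [if_neg h5, add_add_self, if_pos h]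
    · have h5 : l (f + b) = 0 := by rw [hb, h]; decide
      have h2 : f + b + a + b = f + a := by
        rw [add_right_comm f b a, add_add_self]
      rw [if_pos h5, h2, hl, h, if_neg (by decide)]
  rw [h1, map_mul, map_mul, map_mul, map_inv, mul_comm (sign (Equiv.addRight b)) _, mul_assoc,
    mul_inv_cancel, mul_one]
  exact Int.units_mul_self _

theorem sign_add (hX : 1 < Fintype.card X) (a : X → ZMod 2) :
    sign (Equiv.addRight a : Perm (X → ZMod 2)) = 1 := by
  have h01 : ∀ x : ZMod 2, x = 0 ∨ x = 1 := by decide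
  by_cases ha : a = 0
  · have h1 : (Equiv.addRight a : Perm (X → ZMod 2)) = 1 := by
      ext1 f
      show f + a = f
      rw [ha, add_zero]
    rw [h1, map_one]
  · obtain ⟨x, hx⟩ : ∃ x, a x ≠ 0 := by
      by_contra hcon
      push Not at hcon
      exact ha (funext hcon)
    have hx1 : a x = 1 := (h01 _).resolve_left hx
    obtain ⟨y, hy⟩ := Fintype.exists_ne_of_one_lt_card hX x
    obtain ⟨b, hb⟩ : ∃ b : X → ZMod 2, ∀ z, b z = if z = y then 1 else 0 := ⟨_, fun _ => rfl⟩
    have hbx : b x = 0 := by rw [hb, if_neg (fun h => hy h.symm)]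
    have hby : b y = 1 := by rw [hb, if_pos rfl]
    rcases h01 (a y) with h | h
    · refine sign_half a b (fun f => f y) ?_ ?_
      · intro f
        show f y + a y = f y
        rw [h, add_zero]
      · intro f
        show f y + b y = f y + 1
        rw [hby]
    · refine sign_half a b (fun f => f x + f y) ?_ ?_
      · intro f
        show (f x + a x) + (f y + a y) = f x + f y
        rw [hx1, h]
        have h2 : ∀ p q : ZMod 2, (p + 1) + (q + 1) = p + q := by decide
        exact h2 _ _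
      · intro f
        show (f x + b x) + (f y + b y) = f x + f y + 1
        rw [hbx, hby, add_zero, add_assoc]

end sgn

section grp

variable {N : ℕ} {Om : Type} [Fintype Om] [DecidableEq Om]

instance instDecStr : DecidableEq (Str N Om) :=
  @instDecidableEqSum _ _ inferInstance (@instDecidableEqSum _ _ inferInstance inferInstance)

/-- the shifts are even -/
theorem sign_sh (hN : 1 < N) (hOm : 1 < Fintype.card Om) (s : Sym2 (Fin N) → Om → ZMod 2)
    (t : Fin N → Om → Fin N → ZMod 2) : sign (sh s t) = 1 := by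
  have h1 : sh s t = Perm.sumCongr (prodCongrRight (fun e => (Equiv.addRight (s e))))
      (Perm.sumCongr (prodCongrRight (fun v => prodCongrRight (fun ω =>
        (Equiv.addRight (t v ω))))) 1) := by
    ext1 x
    rcases x with ⟨e, f⟩ | ⟨v, ω, b⟩ | e
    · rfl
    · rfl
    · rfl
  rw [h1, sign_sumCongr, sign_sumCongr, sign_prodCongrRight, sign_prodCongrRight, map_one,
    mul_one]
  have h2 : ∀ e, sign (Equiv.addRight (s e) : Perm (Om → ZMod 2)) = 1 := fun e => sign_add hOm _
  have h3 : ∀ v, sign (prodCongrRight (fun ω => (Equiv.addRight (t v ω) :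
      Perm (Fin N → ZMod 2)))) = 1 := by
    intro v
    rw [sign_prodCongrRight]
    refine prod_eq_one fun ω _ => sign_add ?_ _
    rw [Fintype.card_fin]
    exact hN
  rw [prod_eq_one (fun e _ => h2 e), prod_eq_one (fun v _ => h3 v), one_mul]

/-- the group of the shifts -/
def Sg (N : ℕ) (Om : Type) :
    AddSubgroup ((Sym2 (Fin N) → Om → ZMod 2) × (Fin N → Om → Fin N → ZMod 2)) where
  carrier := {p | ∀ v ω, p.2 v ω v = 0 ∧ ∑ w, p.2 v ω w = 0}
  zero_mem' := fun v ω => ⟨rfl, by
    show ∑ w : Fin N, (0 : ZMod 2) = 0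
    exact sum_const_zero⟩
  add_mem' := by
    intro p q hp hq v ω
    refine ⟨?_, ?_⟩
    · show p.2 v ω v + q.2 v ω v = 0
      rw [(hp v ω).1, (hq v ω).1, add_zero]
    · show ∑ w, (p.2 v ω w + q.2 v ω w) = 0
      rw [sum_add_distrib, (hp v ω).2, (hq v ω).2, add_zero]
  neg_mem' := by
    intro p hp v ω
    refine ⟨?_, ?_⟩
    · show -(p.2 v ω v) = 0
      rw [(hp v ω).1, neg_zero]
    · show ∑ w, -(p.2 v ω w) = 0
      rw [sum_neg_distrib, (hp v ω).2, neg_zero]

/-- the change of the twists -/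
def Bm (p : (Sym2 (Fin N) → Om → ZMod 2) × (Fin N → Om → Fin N → ZMod 2)) :
    Fin N → Om → Fin N → ZMod 2 :=
  fun v ω w => if w = v then 0 else p.1 s(v, w) ω + p.2 v ω w

theorem Bm_add (p q : (Sym2 (Fin N) → Om → ZMod 2) × (Fin N → Om → Fin N → ZMod 2)) :
    Bm (p + q) = Bm p + Bm q := by
  funext v ω w
  show (if w = v then 0 else (p.1 s(v, w) ω + q.1 s(v, w) ω) + (p.2 v ω w + q.2 v ω w)) =
    (if w = v then 0 else p.1 s(v, w) ω + p.2 v ω w) +
      (if w = v then 0 else q.1 s(v, w) ω + q.2 v ω w)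
  by_cases h : w = v
  · rw [if_pos h, if_pos h, if_pos h, add_zero]
  · rw [if_neg h, if_neg h, if_neg h]
    ring

theorem Bm_zero : Bm (0 : (Sym2 (Fin N) → Om → ZMod 2) × (Fin N → Om → Fin N → ZMod 2)) = 0 := by
  funext v ω w
  show (if w = v then 0 else (0 : ZMod 2) + 0) = 0
  by_cases h : w = v
  · rw [if_pos h]
  · rw [if_neg h, add_zero]

theorem lk_sh' (τ : Fin N → Om → Fin N → ZMod 2)
    (p : (Sym2 (Fin N) → Om → ZMod 2) × (Fin N → Om → Fin N → ZMod 2)) (hp : p ∈ Sg N Om)
    (e : Sym2 (Fin N)) (f : Om → ZMod 2) (o : Option (Str N Om)) :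
    Lk τ e f o ↔ Lk (τ + Bm p) e (f + p.1 e) (o.map (shf p.1 p.2)) := by
  rcases o with _ | ⟨e', f'⟩ | ⟨v, ω, b⟩ | e'
  · exact Iff.rfl
  · exact Iff.rfl
  · show ((b v = 0 ∧ ∑ w, b w = 1) → ∃ w, w ≠ v ∧ e = s(v, w) ∧ f ω ≠ b w + τ v ω w) ↔
      (((b + p.2 v ω) v = 0 ∧ ∑ w, (b + p.2 v ω) w = 1) → ∃ w, w ≠ v ∧ e = s(v, w) ∧
        (f + p.1 e) ω ≠ (b + p.2 v ω) w + (τ + Bm p) v ω w)
    have h1 : (b + p.2 v ω) v = b v := by
      rw [Pi.add_apply, (hp v ω).1, add_zero]
    have h2 : ∑ w, (b + p.2 v ω) w = ∑ w, b w := by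
      simp only [Pi.add_apply]
      rw [sum_add_distrib, (hp v ω).2, add_zero]
    rw [h1, h2]
    refine imp_congr_right fun _ => exists_congr fun w => ?_
    have h3 : ∀ x y z u : ZMod 2, x ≠ y + z ↔ x + u ≠ y + z + u := by decide
    have h4 : ∀ y z u q : ZMod 2, y + z + u = (y + q) + (z + (u + q)) := by decide
    constructor
    · rintro ⟨hw, he, hf⟩
      refine ⟨hw, he, ?_⟩
      show f ω + p.1 e ω ≠ (b w + p.2 v ω w) +
        (τ v ω w + (if w = v then 0 else p.1 s(v, w) ω + p.2 v ω w))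
      rw [if_neg hw, ← h4, he]
      exact (h3 _ _ _ _).1 hf
    · rintro ⟨hw, he, hf⟩
      refine ⟨hw, he, ?_⟩
      have hf' : f ω + p.1 e ω ≠ (b w + p.2 v ω w) +
        (τ v ω w + (if w = v then 0 else p.1 s(v, w) ω + p.2 v ω w)) := hf
      rw [if_neg hw, ← h4, he] at hf'
      exact (h3 _ _ _ _).2 hf'
  · exact Iff.rfl

theorem adjO_sh' (τ : Fin N → Om → Fin N → ZMod 2)
    (p : (Sym2 (Fin N) → Om → ZMod 2) × (Fin N → Om → Fin N → ZMod 2)) (hp : p ∈ Sg N Om)
    (a b : Option (Str N Om)) :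
    AdjO τ a b ↔ AdjO (τ + Bm p) (a.map (shf p.1 p.2)) (b.map (shf p.1 p.2)) := by
  have key : ∀ a b : Option (Str N Om), (∃ e f, a = some (Sum.inl (e, f)) ∧ Lk τ e f b) ↔
      ∃ e f, a.map (shf p.1 p.2) = some (Sum.inl (e, f)) ∧
        Lk (τ + Bm p) e f (b.map (shf p.1 p.2)) := by
    intro a b
    constructor
    · rintro ⟨e, f, rfl, h1⟩
      exact ⟨e, f + p.1 e, rfl, (lk_sh' τ p hp e f b).1 h1⟩
    · rintro ⟨e, f, h1, h2⟩
      rcases a with _ | ⟨e', f'⟩ | ⟨v, ω, b'⟩ | e'
      · exact absurd h1 (by simp)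
      · have h3 : (Sum.inl (e', f' + p.1 e') : Str N Om) = Sum.inl (e, f) := Option.some.inj h1
        have h4 := Sum.inl.inj h3
        have h5 : e' = e := (Prod.ext_iff.1 h4).1
        have h6 : f' + p.1 e' = f := (Prod.ext_iff.1 h4).2
        subst h5
        subst h6
        exact ⟨e', f', rfl, (lk_sh' τ p hp e' f' b).2 h2⟩
      · have h3 : (Sum.inr (Sum.inl (v, ω, b' + p.2 v ω)) : Str N Om) = Sum.inl (e, f) :=
          Option.some.inj h1
        exact absurd h3 (by simp)
      · have h3 : (Sum.inr (Sum.inr e') : Str N Om) = Sum.inl (e, f) := Option.some.inj h1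
        exact absurd h3 (by simp)
  exact or_congr (key a b) (key b a)

variable {V : Type} [Fintype V] [DecidableEq V] (ι : Str N Om ↪ V)

/-- the shift on the vertices -/
noncomputable def av (p : (Sym2 (Fin N) → Om → ZMod 2) × (Fin N → Om → Fin N → ZMod 2)) :
    Perm V := (sh p.1 p.2).viaEmbedding ι

theorem av_invol (p : (Sym2 (Fin N) → Om → ZMod 2) × (Fin N → Om → Fin N → ZMod 2)) (a : V) :
    av ι p (av ι p a) = a := by
  by_cases ha : a ∈ Set.range ι
  · obtain ⟨y, rfl⟩ := ha
    show (sh p.1 p.2).viaEmbedding ι ((sh p.1 p.2).viaEmbedding ι (ι y)) = ι y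
    rw [Perm.viaEmbedding_apply, Perm.viaEmbedding_apply]
    congr 1
    exact shf_invol p.1 p.2 y
  · show (sh p.1 p.2).viaEmbedding ι ((sh p.1 p.2).viaEmbedding ι a) = a
    rw [Perm.viaEmbedding_apply_of_notMem _ _ _ ha, Perm.viaEmbedding_apply_of_notMem _ _ _ ha]

theorem ac_gr (τ : Fin N → Om → Fin N → ZMod 2)
    (p : (Sym2 (Fin N) → Om → ZMod 2) × (Fin N → Om → Fin N → ZMod 2)) (hp : p ∈ Sg N Om) :
    ac (av ι p) (gr ι τ) = gr ι (τ + Bm p) := by
  ext a b
  have hinv : ∀ a, (av ι p)⁻¹ a = av ι p a := by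
    intro a
    rw [Equiv.Perm.inv_eq_iff_eq]
    exact (av_invol ι p a).symm
  rw [ac_adj, hinv, hinv]
  show (av ι p a ≠ av ι p b ∧ AdjO τ (Function.partialInv ι (av ι p a))
    (Function.partialInv ι (av ι p b))) ↔ (a ≠ b ∧ AdjO (τ + Bm p) (Function.partialInv ι a)
    (Function.partialInv ι b))
  have h1 : ∀ a, (Function.partialInv ι (av ι p a)).map (shf p.1 p.2) =
      Function.partialInv ι a := by
    intro a
    have h2 := pinv_via ι p.1 p.2 (av ι p a)
    have h3 : (sh p.1 p.2).viaEmbedding ι (av ι p a) = a := av_invol ι p a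
    rw [h3] at h2
    exact h2.symm
  rw [adjO_sh' τ p hp, h1, h1]
  exact and_congr_left fun _ => (av ι p).injective.ne_iff

theorem sign_av (hN : 1 < N) (hOm : 1 < Fintype.card Om)
    (p : (Sym2 (Fin N) → Om → ZMod 2) × (Fin N → Om → Fin N → ZMod 2)) :
    sign (av ι p) = 1 := by
  unfold av viaEmbedding
  rw [sign_extendDomain]
  exact sign_sh hN hOm _ _

end grp

end Pool.Agent.T9h47.WX
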