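import Mathlib
import Pool.Agent.T9h47.WH.Net
import Pool.Agent.T9h47.WX.Defs

/-!
# Indistinguishability by averaging over the stabilisers of views
-/

set_option autoImplicit false
set_option linter.unusedSectionVars false

namespace Pool.Agent.T9h47.WX

open Finset
open Pool.Agent.T9h47.WH

/-- The abelian group `G` acts on the instances `T`. The subgroup `Z g` does not change the view of
the gate `g`. If two instances are related for a gate, then they are equivalent by `Z g` to
instances which are related for a child of the gate. Then related instances have equal values. -/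
theorem avg_ind {K I : Type} (C : Net K I) {T G : Type} [AddCommGroup G] [Finite G]
    (a : G → T → T) (ha : ∀ p q t, a (p + q) t = a p (a q t)) (x : T → I → K)
    (Z : C.Gate → AddSubgroup G)
    (hZ : ∀ g, ∀ p ∈ Z g, ∀ t, view C g (x (a p t)) = view C g (x t))
    (R : C.Gate → T → T → Prop)
    (hin : ∀ g i, C.lab g = Sum.inl i → ∀ t t', R g t t' → x t i = x t' i)
    (hR : ∀ g h, (∃ r, (r, h) ∈ C.kids g) → ∀ t t', R g t t' → ∃ p ∈ Z g, ∃ q ∈ Z g,
      ∀ z ∈ Z g, R h (a z (a p t)) (a z (a q t'))) :
    ∀ (m : ℕ) (g : C.Gate), C.rank g < m → ∀ t t', R g t t' →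
      C.val (x t) g = C.val (x t') g := by
  classical
  intro m
  induction m with
  | zero => intro g hg; exact absurd hg (Nat.not_lt_zero _)
  | succ m ih =>
    intro g hg t t' hr
    rcases hl : C.lab g with i | op
    · rw [C.val_inl (x t) g i hl, C.val_inl (x t') g i hl]
      exact hin g i hl t t' hr
    · rw [C.val_inr (x t) g op hl, C.val_inr (x t') g op hl]
      congr 1
      funext r
      obtain ⟨U, hU⟩ : ∃ U : Finset (ℕ × C.Gate), U = (C.kids g).filter (fun p => p.1 = r) :=
        ⟨_, rfl⟩
      obtain ⟨vals, hvals⟩ : ∃ vals : (I → K) → Multiset K,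
        ∀ y, vals y = ((C.kids g).filter (fun p => p.1 = r)).val.map (fun p => C.val y p.2) :=
        ⟨_, fun _ => rfl⟩
      rw [← hvals, ← hvals]
      ext v
      have hcount : ∀ y : I → K, (vals y).count v = ∑ p ∈ U, if C.val y p.2 = v then 1 else 0 := by
        intro y
        rw [hvals, ← hU, Multiset.count_map, ← card_filter]
        rw [← Multiset.filter_congr (p := fun p : ℕ × C.Gate => C.val y p.2 = v) (by
          intro p _
          exact eq_comm)]
        rfl
      let _ : Fintype (Z g) := Fintype.ofFinite _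
      have hview : ∀ z : Z g, ∀ t, vals (x (a z.1 t)) = vals (x t) := by
        intro z t
        rw [hvals, hvals]
        exact congrFun (congrArg Prod.snd (hZ g z.1 z.2 t)) r
      have hsum : ∀ t : T, Fintype.card (Z g) * (vals (x t)).count v =
          ∑ p ∈ U, ∑ z : Z g, if C.val (x (a z.1 t)) p.2 = v then 1 else 0 := by
        intro t
        rw [sum_comm]
        have h3 : ∀ z : Z g, (∑ p ∈ U, if C.val (x (a z.1 t)) p.2 = v then 1 else 0) =
            (vals (x t)).count v := by
          intro z
          rw [← hcount, hview]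
        rw [sum_congr rfl (fun z _ => h3 z), sum_const, card_univ, smul_eq_mul]
      have hshift : ∀ (p₀ : G) (h₀ : p₀ ∈ Z g) (t : T) (h : C.Gate),
          (∑ z : Z g, if C.val (x (a z.1 t)) h = v then 1 else 0) =
            ∑ z : Z g, if C.val (x (a z.1 (a p₀ t))) h = v then 1 else 0 := by
        intro p₀ h₀ t h
        rw [← Equiv.sum_comp (Equiv.addRight (⟨p₀, h₀⟩ : Z g))
          (fun z => if C.val (x (a z.1 t)) h = v then 1 else 0)]
        refine sum_congr rfl fun z _ => ?_
        have h1 : ((Equiv.addRight (⟨p₀, h₀⟩ : Z g)) z).1 = z.1 + p₀ := rfl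
        rw [h1, ha]
      have hkey : ∀ p ∈ U, (∑ z : Z g, if C.val (x (a z.1 t)) p.2 = v then 1 else 0) =
          ∑ z : Z g, if C.val (x (a z.1 t')) p.2 = v then 1 else 0 := by
        intro p hp
        have hp2 : p ∈ C.kids g := by
          rw [hU] at hp
          exact (mem_filter.1 hp).1
        have hrk : C.rank p.2 < m := lt_of_lt_of_le (C.rank_lt g p hp2) (Nat.lt_succ_iff.1 hg)
        obtain ⟨p₀, hp₀, q₀, hq₀, h4⟩ := hR g p.2 ⟨p.1, hp2⟩ t t' hr
        rw [hshift p₀ hp₀ t, hshift q₀ hq₀ t']
        refine sum_congr rfl fun z _ => ?_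
        rw [ih p.2 hrk _ _ (h4 z.1 z.2)]
      have h8 : Fintype.card (Z g) * (vals (x t)).count v =
          Fintype.card (Z g) * (vals (x t')).count v := by
        rw [hsum, hsum]
        exact sum_congr rfl hkey
      exact Nat.eq_of_mul_eq_mul_left Fintype.card_pos h8

end Pool.Agent.T9h47.WX
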