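import Mathlib
import Pool.Agent.T9h47.WX.Grp
import Pool.Agent.T9h47.WX.Ind

/-!
# Moving the defect
-/

set_option autoImplicit false
set_option linter.unusedSectionVars false

namespace Pool.Agent.T9h47.WX

open Finset Equiv Equiv.Perm
open Pool.Agent.T9h47.SF Pool.Agent.T9h47.WH

section move

variable {N : ℕ} {Om : Type} [Fintype Om] [DecidableEq Om]

/-- the twist is at `u` -/
def At (ω₁ : Om) (u : Fin N) (δ : Fin N → Om → Fin N → ZMod 2) : Prop :=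
  (∀ v ω w, ¬ (v = u ∧ ω = ω₁ ∧ w ≠ u) → δ v ω w = 0) ∧ ∑ w, δ u ω₁ w = 1

theorem step (ω₁ : Om) (u u₁ : Fin N) (hne : u₁ ≠ u) (δ : Fin N → Om → Fin N → ZMod 2)
    (hδ : At ω₁ u δ) : ∃ p ∈ Sg N Om, (∀ e, e ≠ s(u, u₁) → p.1 e = 0) ∧
      (∀ v ω, ¬ (v = u ∧ ω = ω₁) → p.2 v ω = 0) ∧ At ω₁ u₁ (δ + Bm p) := by
  classical
  obtain ⟨h1, h2⟩ := hδ
  obtain ⟨s, hs⟩ : ∃ s : Sym2 (Fin N) → Om → ZMod 2, ∀ e ω, s e ω =
    if e = s(u, u₁) ∧ ω = ω₁ then 1 else 0 := ⟨_, fun _ _ => rfl⟩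
  obtain ⟨t, ht⟩ : ∃ t : Fin N → Om → Fin N → ZMod 2, ∀ v ω w, t v ω w =
    if v = u ∧ ω = ω₁ then δ u ω₁ w + (if w = u₁ then 1 else 0) else 0 := ⟨_, fun _ _ _ => rfl⟩
  have h01 : ∀ a : ZMod 2, a + 1 + (1 + (a + 1)) = 1 := by decide
  have hB : ∀ v ω w, (δ + Bm (s, t)) v ω w = if v = u₁ ∧ ω = ω₁ ∧ w = u then 1 else 0 := by
    intro v ω w
    show δ v ω w + (if w = v then 0 else s s(v, w) ω + t v ω w) = _
    by_cases hwv : w = v
    · rw [if_pos hwv, add_zero, h1 v ω w (fun h => h.2.2 (hwv.trans h.1)), if_neg]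
      rintro ⟨h3, _, h4⟩
      exact hne (h3.symm.trans (hwv.symm.trans h4))
    · rw [if_neg hwv]
      by_cases hω : ω = ω₁
      · by_cases hv : v = u
        · have e1 : t v ω w = δ u ω₁ w + (if w = u₁ then 1 else 0) := by
            rw [ht, if_pos ⟨hv, hω⟩]
          have e2 : s s(v, w) ω = if w = u₁ then 1 else 0 := by
            rw [hs, hv]
            by_cases hw : w = u₁
            · rw [if_pos ⟨by rw [hw], hω⟩, if_pos hw]
            · rw [if_neg (fun h => hw (Sym2.congr_right.1 h.1)), if_neg hw]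
          have h3 : ∀ a b : ZMod 2, a + (b + (a + b)) = 0 := by decide
          rw [e1, e2, hv, hω, h3, if_neg (fun h => hne h.1.symm)]
        · have e1 : t v ω w = 0 := by rw [ht, if_neg (fun h => hv h.1)]
          rw [e1, h1 v ω w (fun h => hv h.1), hs, zero_add, add_zero]
          by_cases hc : v = u₁ ∧ w = u
          · rw [if_pos ⟨by rw [hc.1, hc.2, Sym2.eq_swap], hω⟩, if_pos ⟨hc.1, hω, hc.2⟩]
          · rw [if_neg, if_neg (fun h => hc ⟨h.1, h.2.2⟩)]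
            rintro ⟨h3, _⟩
            rw [Sym2.eq_iff] at h3
            rcases h3 with ⟨h4, _⟩ | ⟨h4, h5⟩
            · exact hv h4
            · exact hc ⟨h4, h5⟩
      · rw [h1 v ω w (fun h => hω h.2.1), hs, ht, if_neg (fun h => hω h.2),
          if_neg (fun h => hω h.2), if_neg (fun h => hω h.2.1)]
        rfl
  refine ⟨(s, t), ?_, ?_, ?_, ?_, ?_⟩
  · intro v ω
    constructor
    · show t v ω v = 0
      rw [ht]
      by_cases h : v = u ∧ ω = ω₁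
      · rw [if_pos h, h1 u ω₁ v (fun h' => h'.2.2 h.1), if_neg (fun h' => hne (h'.symm.trans h.1)),
          add_zero]
      · rw [if_neg h]
    · show ∑ w, t v ω w = 0
      by_cases h : v = u ∧ ω = ω₁
      · have h3 : ∀ w, t v ω w = δ u ω₁ w + (if w = u₁ then 1 else 0) := by
          intro w
          rw [ht, if_pos h]
        rw [sum_congr rfl (fun w _ => h3 w), sum_add_distrib, h2, sum_ite_eq' univ u₁,
          if_pos (mem_univ _)]
        decide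
      · refine sum_eq_zero fun w _ => ?_
        rw [ht, if_neg h]
  · intro e he
    funext ω
    show s e ω = 0
    rw [hs, if_neg (fun h => he h.1)]
  · intro v ω h
    funext w
    show t v ω w = 0
    rw [ht, if_neg h]
  · intro v ω w h
    rw [hB, if_neg]
    rintro ⟨h3, h4, h5⟩
    exact h ⟨h3, h4, fun h6 => hne (h6.symm.trans h5)⟩
  · have h3 : ∀ w, (δ + Bm (s, t)) u₁ ω₁ w = if w = u then 1 else 0 := by
      intro w
      rw [hB]
      by_cases hw : w = u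
      · rw [if_pos ⟨rfl, rfl, hw⟩, if_pos hw]
      · rw [if_neg (fun h => hw h.2.2), if_neg hw]
    rw [sum_congr rfl (fun w _ => h3 w), sum_ite_eq' univ u, if_pos (mem_univ _)]

variable {V : Type} [Fintype V] [DecidableEq V] (ι : Str N Om ↪ V)

/-- the shift moves no element of `D` -/
def Fx (D : Finset V) (p : (Sym2 (Fin N) → Om → ZMod 2) × (Fin N → Om → Fin N → ZMod 2)) : Prop :=
  (∀ e f, ι (Sum.inl (e, f)) ∈ D → p.1 e = 0) ∧
    ∀ v ω b, ι (Sum.inr (Sum.inl (v, ω, b))) ∈ D → p.2 v ω = 0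

theorem Fx.add {D : Finset V}
    {p q : (Sym2 (Fin N) → Om → ZMod 2) × (Fin N → Om → Fin N → ZMod 2)} (hp : Fx ι D p)
    (hq : Fx ι D q) : Fx ι D (p + q) := by
  refine ⟨fun e f h => ?_, fun v ω b h => ?_⟩
  · show p.1 e + q.1 e = 0
    rw [hp.1 e f h, hq.1 e f h, add_zero]
  · show p.2 v ω + q.2 v ω = 0
    rw [hp.2 v ω b h, hq.2 v ω b h, add_zero]

theorem Fx.zero (D : Finset V) :
    Fx ι D (0 : (Sym2 (Fin N) → Om → ZMod 2) × (Fin N → Om → Fin N → ZMod 2)) :=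
  ⟨fun _ _ _ => rfl, fun _ _ _ _ => rfl⟩

theorem Fx.evOn (hN : 1 < N) (hOm : 1 < Fintype.card Om) (H : Finset V) (hι : ∀ x, ι x ∈ H)
    {D : Finset V} {p : (Sym2 (Fin N) → Om → ZMod 2) × (Fin N → Om → Fin N → ZMod 2)}
    (hp : Fx ι D p) : EvOn (H \ D) (av ι p) := by
  refine ⟨?_, sign_av ι hN hOm p⟩
  intro x hx
  by_cases hr : x ∈ Set.range ι
  · obtain ⟨y, rfl⟩ := hr
    have hD : ι y ∈ D := by
      by_contra h
      exact hx (mem_sdiff.2 ⟨hι y, h⟩)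
    show (sh p.1 p.2).viaEmbedding ι (ι y) = ι y
    rw [Perm.viaEmbedding_apply, sh_apply]
    congr 1
    rcases y with ⟨e, f⟩ | ⟨v, ω, b⟩ | e
    · show (Sum.inl (e, f + p.1 e) : Str N Om) = Sum.inl (e, f)
      rw [hp.1 e f hD, add_zero]
    · show (Sum.inr (Sum.inl (v, ω, b + p.2 v ω)) : Str N Om) = Sum.inr (Sum.inl (v, ω, b))
      rw [hp.2 v ω b hD, add_zero]
    · rfl
  · exact Perm.viaEmbedding_apply_of_notMem _ _ _ hr

/-- a short path which avoids a small set -/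
theorem path (ω₁ : Om) {D : Finset V} (hD : D.card + 1 < N) {u u' : Fin N} (hne : u' ≠ u) :
    (∀ f, ι (Sum.inl (s(u, u'), f)) ∉ D) ∨ ∃ w, w ≠ u ∧ w ≠ u' ∧
      (∀ b, ι (Sum.inr (Sum.inl (w, ω₁, b))) ∉ D) ∧ (∀ f, ι (Sum.inl (s(u, w), f)) ∉ D) ∧
      ∀ f, ι (Sum.inl (s(w, u'), f)) ∉ D := by
  classical
  by_contra hcon
  rw [not_or] at hcon
  obtain ⟨h1, h2⟩ := hcon
  push Not at h1 h2
  have hex : ∀ w, ∃ x : Str N Om, w ≠ u → ι x ∈ D ∧
      ((∃ f, x = Sum.inl (s(u, w), f)) ∨ (w ≠ u' ∧ ∃ b, x = Sum.inr (Sum.inl (w, ω₁, b))) ∨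
        (w ≠ u' ∧ ∃ f, x = Sum.inl (s(w, u'), f))) := by
    intro w
    by_cases hwu : w = u
    · exact ⟨Sum.inr (Sum.inr s(u, u)), fun h => absurd hwu h⟩
    · by_cases hwu' : w = u'
      · obtain ⟨f, hf⟩ := h1
        exact ⟨_, fun _ => ⟨hf, Or.inl ⟨f, by rw [hwu']⟩⟩⟩
      · by_cases h3 : ∀ b, ι (Sum.inr (Sum.inl (w, ω₁, b))) ∉ D
        · by_cases h4 : ∀ f, ι (Sum.inl (s(u, w), f)) ∉ D
          · obtain ⟨f, hf⟩ := h2 w hwu hwu' h3 h4
            exact ⟨_, fun _ => ⟨hf, Or.inr (Or.inr ⟨hwu', f, rfl⟩)⟩⟩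
          · push Not at h4
            obtain ⟨f, hf⟩ := h4
            exact ⟨_, fun _ => ⟨hf, Or.inl ⟨f, rfl⟩⟩⟩
        · push Not at h3
          obtain ⟨b, hb⟩ := h3
          exact ⟨_, fun _ => ⟨hb, Or.inr (Or.inl ⟨hwu', b, rfl⟩)⟩⟩
  choose x hx using hex
  have h3 : (univ.erase u).card ≤ D.card := by
    refine card_le_card_of_injOn (fun w => ι (x w)) ?_ ?_
    · intro w hw
      exact (hx w (mem_erase.1 hw).1).1
    · intro w hw w' hw' hww
      have hwu := (mem_erase.1 hw).1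
      have hwu' := (mem_erase.1 hw').1
      have h4 : x w = x w' := ι.injective hww
      have key : ∀ w w' : Fin N, w ≠ u → w' ≠ u → w' ≠ u' → s(u, w) ≠ s(w', u') := by
        intro w w' _ h6 _ h8
        rw [Sym2.eq_iff] at h8
        rcases h8 with ⟨h9, _⟩ | ⟨h9, _⟩
        · exact h6 h9.symm
        · exact hne h9.symm
      rcases (hx w hwu).2 with ⟨f, hf⟩ | ⟨hn, b, hf⟩ | ⟨hn, f, hf⟩ <;>
      rcases (hx w' hwu').2 with ⟨f', hf'⟩ | ⟨hn', b', hf'⟩ | ⟨hn', f', hf'⟩ <;>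
      rw [hf, hf'] at h4
      · have h5 := (Prod.ext_iff.1 (Sum.inl.inj h4)).1
        exact Sym2.congr_right.1 h5
      · exact absurd h4 (by simp)
      · have h5 := (Prod.ext_iff.1 (Sum.inl.inj h4)).1
        exact absurd h5 (key _ _ hwu hwu' hn')
      · exact absurd h4 (by simp)
      · exact (Prod.ext_iff.1 (Sum.inl.inj (Sum.inr.inj h4))).1
      · exact absurd h4 (by simp)
      · have h5 := (Prod.ext_iff.1 (Sum.inl.inj h4)).1
        exact absurd h5.symm (key _ _ hwu' hwu hn)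
      · exact absurd h4 (by simp)
      · have h5 := (Prod.ext_iff.1 (Sum.inl.inj h4)).1
        exact Sym2.congr_left.1 h5
  rw [card_erase_of_mem (mem_univ _), card_univ, Fintype.card_fin] at h3
  omega

/-- moving the defect to another vertex -/
theorem move (ω₁ : Om) {D : Finset V} (hD : D.card + 1 < N) {u u' : Fin N} (hne : u' ≠ u)
    (hu : ∀ b, ι (Sum.inr (Sum.inl (u, ω₁, b))) ∉ D) (δ : Fin N → Om → Fin N → ZMod 2)
    (hδ : At ω₁ u δ) : ∃ p ∈ Sg N Om, Fx ι D p ∧ At ω₁ u' (δ + Bm p) := by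
  have hfx : ∀ {p : (Sym2 (Fin N) → Om → ZMod 2) × (Fin N → Om → Fin N → ZMod 2)}
      {u u₁ : Fin N}, (∀ b, ι (Sum.inr (Sum.inl (u, ω₁, b))) ∉ D) →
      (∀ f, ι (Sum.inl (s(u, u₁), f)) ∉ D) → (∀ e, e ≠ s(u, u₁) → p.1 e = 0) →
      (∀ v ω, ¬ (v = u ∧ ω = ω₁) → p.2 v ω = 0) → Fx ι D p := by
    intro p u u₁ h1 h2 h3 h4
    refine ⟨fun e f h => h3 e ?_, fun v ω b h => h4 v ω ?_⟩
    · rintro rfl
      exact h2 f h
    · rintro ⟨rfl, rfl⟩
      exact h1 b h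
  rcases path ι ω₁ hD hne with h | ⟨w, h1, h2, h3, h4, h5⟩
  · obtain ⟨p, hp, hp1, hp2, hp3⟩ := step ω₁ u u' hne δ hδ
    exact ⟨p, hp, hfx hu h hp1 hp2, hp3⟩
  · obtain ⟨p, hp, hp1, hp2, hp3⟩ := step ω₁ u w h1 δ hδ
    obtain ⟨q, hq, hq1, hq2, hq3⟩ := step ω₁ w u' (fun h => h2 h.symm) _ hp3
    refine ⟨p + q, (Sg N Om).add_mem hp hq,
      Fx.add ι (hfx hu h4 hp1 hp2) (hfx h3 h5 hq1 hq2), ?_⟩
    rw [Bm_add, ← add_assoc]
    exact hq3

end move

end Pool.Agent.T9h47.WX
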