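import Mathlib
import Pool.Agent.T9h47.WX.Move

/-!
# Dominating sets, certificates and views of networks
-/

set_option autoImplicit false
set_option linter.unusedSectionVars false

namespace Pool.Agent.T9h47.WX

open Finset Equiv Equiv.Perm
open Pool.Agent.T9h47.SF Pool.Agent.T9h47.WH

section inp

variable {N : ℕ} {Om : Type} [Fintype Om] [DecidableEq Om]
variable {V : Type} [Fintype V] [DecidableEq V] (ι : Str N Om ↪ V)

theorem lk_congr {τ τ' : Fin N → Om → Fin N → ZMod 2} {o : Option (Str N Om)}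
    (h : ∀ v ω b, o = some (Sum.inr (Sum.inl (v, ω, b))) → ∀ w, τ v ω w = τ' v ω w)
    (e : Sym2 (Fin N)) (f : Om → ZMod 2) : Lk τ e f o ↔ Lk τ' e f o := by
  rcases o with _ | ⟨e', f'⟩ | ⟨v, ω, b⟩ | e'
  · exact Iff.rfl
  · exact Iff.rfl
  · show ((b v = 0 ∧ ∑ w, b w = 1) → ∃ w, w ≠ v ∧ e = s(v, w) ∧ f ω ≠ b w + τ v ω w) ↔
      ((b v = 0 ∧ ∑ w, b w = 1) → ∃ w, w ≠ v ∧ e = s(v, w) ∧ f ω ≠ b w + τ' v ω w)
    refine imp_congr_right fun _ => exists_congr fun w => ?_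
    rw [h v ω b rfl w]
  · exact Iff.rfl

theorem adj_congr {τ τ' : Fin N → Om → Fin N → ZMod 2} {a b : V}
    (ha : ∀ v ω c, a = ι (Sum.inr (Sum.inl (v, ω, c))) → ∀ w, τ v ω w = τ' v ω w)
    (hb : ∀ v ω c, b = ι (Sum.inr (Sum.inl (v, ω, c))) → ∀ w, τ v ω w = τ' v ω w) :
    (gr ι τ).Adj a b ↔ (gr ι τ').Adj a b := by
  have key : ∀ a : V, (∀ v ω c, a = ι (Sum.inr (Sum.inl (v, ω, c))) → ∀ w, τ v ω w = τ' v ω w) →
      ∀ e f, Lk τ e f (Function.partialInv ι a) ↔ Lk τ' e f (Function.partialInv ι a) := by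
    intro a ha e f
    refine lk_congr (fun v ω c h => ha v ω c (pinv_some ι a _ h)) e f
  show (a ≠ b ∧ AdjO τ _ _) ↔ (a ≠ b ∧ AdjO τ' _ _)
  refine and_congr_right fun _ => ?_
  unfold AdjO
  refine or_congr ?_ ?_
  · exact exists_congr fun e => exists_congr fun f => and_congr_right fun _ => key b hb e f
  · exact exists_congr fun e => exists_congr fun f => and_congr_right fun _ => key a ha e f

end inp

/-- gates do not see a defect which is not in their support -/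
theorem gate_blind {N : ℕ} {Om : Type} [Fintype Om] [DecidableEq Om] (hN : 1 < N)
    (hOm : 1 < Fintype.card Om) {V : Type} [Fintype V] [DecidableEq V] (ι : Str N Om ↪ V)
    (H : Finset V) (hι : ∀ x, ι x ∈ H) {K : Type} (C : Net K (Sym2 V)) (b₀ b₁ : K)
    (D : C.Gate → Finset V) (hDN : ∀ g, (D g).card + 1 < N)
    (hDH : ∀ g, 4 ≤ (H \ D g).card)
    (hD : ∀ g σ, EvOn (H \ D g) σ → ∀ G, vw C b₀ b₁ g (ac σ G) = vw C b₀ b₁ g G)
    (ω₁ : Om) (g : C.Gate) (u : Fin N) (hu : ∀ b, ι (Sum.inr (Sum.inl (u, ω₁, b))) ∉ D g)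
    (δ : Fin N → Om → Fin N → ZMod 2) (hδ : At ω₁ u δ) :
    C.val (graphInput b₀ b₁ (gr ι 0)) g = C.val (graphInput b₀ b₁ (gr ι δ)) g := by
  classical
  have hFin : Finite (Sg N Om) := inferInstance
  have hpp : ∀ a : ZMod 2, a + a = 0 := by decide
  have hself : ∀ (f : Fin N → Om → Fin N → ZMod 2), f + f = 0 := by
    intro f
    funext v ω w
    exact hpp _
  obtain ⟨Z, hZ⟩ : ∃ Z : C.Gate → AddSubgroup (Sg N Om), ∀ g p, p ∈ Z g ↔
      ∀ τ, view C g (graphInput b₀ b₁ (gr ι (τ + Bm p.1))) =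
        view C g (graphInput b₀ b₁ (gr ι τ)) := by
    refine ⟨fun g =>
      { carrier := {p | ∀ τ, view C g (graphInput b₀ b₁ (gr ι (τ + Bm p.1))) =
          view C g (graphInput b₀ b₁ (gr ι τ))}
        zero_mem' := by
          intro τ
          show view C g (graphInput b₀ b₁ (gr ι (τ + Bm 0))) = _
          rw [Bm_zero, add_zero]
        add_mem' := by
          intro p q hp hq τ
          show view C g (graphInput b₀ b₁ (gr ι (τ + Bm (p.1 + q.1)))) = _
          rw [Bm_add, ← add_assoc, hq, hp]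
        neg_mem' := by
          intro p hp τ
          have h1 : (-p).1 = p.1 := by
            show -p.1 = p.1
            have hneg : ∀ a : ZMod 2, -a = a := by decide
            refine Prod.ext ?_ ?_
            · funext e ω
              exact hneg _
            · funext v ω w
              exact hneg _
          show view C g (graphInput b₀ b₁ (gr ι (τ + Bm (-p).1))) = _
          rw [h1]
          exact hp τ }, fun g p => Iff.rfl⟩
  have hFx : ∀ (g : C.Gate) (p : Sg N Om), Fx ι (D g) p.1 → p ∈ Z g := by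
    intro g p hp
    rw [hZ]
    intro τ
    have h1 := hD g _ (Fx.evOn ι hN hOm H hι hp) (gr ι τ)
    rw [ac_gr ι τ p.1 p.2] at h1
    exact h1
  have key := avg_ind C (T := Fin N → Om → Fin N → ZMod 2) (G := Sg N Om)
    (fun p τ => τ + Bm p.1) (by
      intro p q τ
      show τ + Bm (p.1 + q.1) = τ + Bm q.1 + Bm p.1
      rw [Bm_add, add_assoc, add_comm (Bm q.1)]) (fun τ => graphInput b₀ b₁ (gr ι τ)) Z
    (fun g p hp τ => (hZ g p).1 hp τ)
    (fun g τ τ' => ∃ u, (∀ b, ι (Sum.inr (Sum.inl (u, ω₁, b))) ∉ D g) ∧ At ω₁ u (τ + τ'))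
    ?_ ?_ (C.rank g + 1) g (Nat.lt_succ_self _) 0 δ ⟨u, hu, by rw [zero_add]; exact hδ⟩
  · exact key
  · rintro g i hl τ τ' ⟨u, hu, hδ⟩
    induction i with
    | _ a b =>
      show graphInput b₀ b₁ (gr ι τ) s(a, b) = graphInput b₀ b₁ (gr ι τ') s(a, b)
      by_cases hb : b₀ = b₁
      · unfold graphInput
        rw [hb, ite_self, ite_self]
      by_cases hab : a = b
      · have h1 : ∀ G : SimpleGraph V, s(a, b) ∉ G.edgeSet := by
          intro G h
          rw [SimpleGraph.mem_edgeSet, hab] at h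
          exact G.loopless.irrefl b h
        unfold graphInput
        rw [if_neg (h1 _), if_neg (h1 _)]
      obtain ⟨h1, h2⟩ := input_supp H C b₀ b₁ hl hab hb (hDH g) (hD g)
      have hkey : ∀ x : V, (x ∈ H → x ∈ D g) → ∀ v ω c, x = ι (Sum.inr (Sum.inl (v, ω, c))) →
          ∀ w, τ v ω w = τ' v ω w := by
        intro x hx v ω c hxc w
        have h3 := hδ.1 v ω w (by
          rintro ⟨rfl, rfl, _⟩
          apply hu c
          rw [← hxc]
          apply hx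
          rw [hxc]
          exact hι _)
        have h4 : ∀ a b : ZMod 2, a + b = 0 → a = b := by decide
        exact h4 _ _ h3
      have h3 := adj_congr ι (τ := τ) (τ' := τ') (a := a) (b := b) (hkey a h1) (hkey b h2)
      have h4 : s(a, b) ∈ (gr ι τ).edgeSet ↔ s(a, b) ∈ (gr ι τ').edgeSet := h3
      unfold graphInput
      by_cases h5 : s(a, b) ∈ (gr ι τ).edgeSet
      · rw [if_pos h5, if_pos (h4.1 h5)]
      · rw [if_neg h5, if_neg (fun h => h5 (h4.2 h))]
  · rintro g h _ τ τ' ⟨u, hu, hδ⟩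
    have hrel : ∀ (p : Sg N Om) (u' : Fin N), (∀ b, ι (Sum.inr (Sum.inl (u', ω₁, b))) ∉ D h) →
        At ω₁ u' ((τ + τ') + Bm p.1) → p ∈ Z g → ∃ p ∈ Z g, ∃ q ∈ Z g, ∀ z ∈ Z g,
        ∃ u, (∀ b, ι (Sum.inr (Sum.inl (u, ω₁, b))) ∉ D h) ∧
          At ω₁ u ((τ + Bm p.1 + Bm z.1) + (τ' + Bm q.1 + Bm z.1)) := by
      intro p u' h1 h2 h3
      refine ⟨p, h3, 0, (Z g).zero_mem, fun z _ => ⟨u', h1, ?_⟩⟩
      have h4 : (τ + Bm p.1 + Bm z.1) + (τ' + Bm (0 : Sg N Om).1 + Bm z.1) =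
          (τ + τ') + Bm p.1 := by
        have h5 : Bm (0 : Sg N Om).1 = 0 := Bm_zero
        rw [h5, add_zero]
        calc (τ + Bm p.1 + Bm z.1) + (τ' + Bm z.1) =
            ((τ + τ') + Bm p.1) + (Bm z.1 + Bm z.1) := by abel
          _ = _ := by rw [hself, add_zero]
      rw [h4]
      exact h2
    by_cases hyu : ∀ b, ι (Sum.inr (Sum.inl (u, ω₁, b))) ∉ D h
    · refine hrel 0 u hyu ?_ (Z g).zero_mem
      have h5 : Bm (0 : Sg N Om).1 = 0 := Bm_zero
      rw [h5, add_zero]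
      exact hδ
    · -- another place
      obtain ⟨u', hu'⟩ : ∃ u' : Fin N, u' ∉ Ty ι ω₁ (D h) := by
        by_contra hcon
        push Not at hcon
        have h1 : Ty ι ω₁ (D h) = univ := by
          ext x
          exact ⟨fun _ => mem_univ _, fun _ => hcon x⟩
        have h2 := card_Ty ι ω₁ (D h)
        rw [h1, card_univ, Fintype.card_fin] at h2
        have h3 := hDN h
        omega
      have hu'' : ∀ b, ι (Sum.inr (Sum.inl (u', ω₁, b))) ∉ D h := by
        intro b hb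
        exact hu' ((mem_Ty ι ω₁ (D h) u').2 ⟨b, hb⟩)
      have hne : u' ≠ u := by
        rintro rfl
        exact hyu hu''
      obtain ⟨p, hp, hp1, hp2⟩ := move ι ω₁ (hDN g) hne hu _ hδ
      exact hrel ⟨p, hp⟩ u' hu'' hp2 (hFx g ⟨p, hp⟩ hp1)

/-- **The lower bound for the number of views.** -/
theorem dom_views (k m : ℕ) (hk : 1 ≤ k) : ∃ h₀ : ℕ, ∀ (V : Type) [Fintype V] [DecidableEq V]
    (H : Finset V), h₀ ≤ H.card → ∀ (K : Type) (C : Net K (Sym2 V)) (b₀ b₁ : K)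
    (𝒮 : Set (Finset (C.Gate × K))), (∀ P ∈ 𝒮, P.card ≤ m) →
    (∀ G : SimpleGraph V, (∃ P ∈ 𝒮, ∀ q ∈ P, C.val (graphInput b₀ b₁ G) q.1 = q.2) ↔
      ∃ S : Finset V, S.card ≤ (k + 1).choose 2 ∧ Dominates G S) →
    H.card.choose k ≤ (views H C b₀ b₁).ncard := by
  classical
  refine ⟨max (2 ^ (20 * k + 6)) (Fintype.card (Str (k + 1) (Fin (m * k + 2)))), ?_⟩
  intro V _ _ H hH K C b₀ b₁ 𝒮 h𝒮 hdec
  by_contra hlt
  rw [not_le] at hlt
  have hH1 : 2 ^ (20 * k + 6) ≤ H.card := (le_max_left _ _).trans hH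
  have hH2 : Fintype.card (Str (k + 1) (Fin (m * k + 2))) ≤ H.card := (le_max_right _ _).trans hH
  have hH3 : k + 5 ≤ H.card := by
    have h1 : 20 * k + 6 < 2 ^ (20 * k + 6) := Nat.lt_two_pow_self
    omega
  -- the embedding
  obtain ⟨ι, hι⟩ : ∃ ι : Str (k + 1) (Fin (m * k + 2)) ↪ V, ∀ x, ι x ∈ H := by
    obtain ⟨φ⟩ : Nonempty (Str (k + 1) (Fin (m * k + 2)) ↪ {x // x ∈ H}) :=
      Function.Embedding.nonempty_of_card_le (by rw [Fintype.card_coe]; exact hH2)
    exact ⟨φ.trans (Function.Embedding.subtype _), fun x => (φ x).2⟩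
  -- the supports
  choose D hD1 hD2 hD3 using fun g => exists_supp_view H C b₀ b₁ k hlt hH1 g
  have hDH : ∀ g, 4 ≤ (H \ D g).card := by
    intro g
    have h1 := le_card_sdiff (D g) H
    have h2 := hD2 g
    omega
  -- the accepting certificate
  obtain ⟨P, hP, hPA⟩ := (hdec (gr ι 0)).2 (dom_yes ι (by omega))
  -- a coordinate which is not touched
  obtain ⟨oc, hoc⟩ : ∃ oc : Option (Str (k + 1) (Fin (m * k + 2))) → Option (Fin (m * k + 2)),
      ∀ v ω b, oc (some (Sum.inr (Sum.inl (v, ω, b)))) = some ω :=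
    ⟨fun a => match a with
      | some (Sum.inr (Sum.inl (_, ω, _))) => some ω
      | _ => none, fun _ _ _ => rfl⟩
  obtain ⟨W, hW⟩ : ∃ W : Finset (Option (Fin (m * k + 2))), W = P.biUnion (fun q =>
    (D q.1).image (fun a => oc (Function.partialInv ι a))) := ⟨_, rfl⟩
  have hWcard : W.card ≤ m * k := by
    rw [hW]
    refine (card_biUnion_le_card_mul P _ k ?_).trans (Nat.mul_le_mul_right _ (h𝒮 P hP))
    intro q _
    exact card_image_le.trans (hD2 q.1).le
  obtain ⟨ω₁, hω₁⟩ : ∃ ω₁ : Fin (m * k + 2), some ω₁ ∉ W := by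
    by_contra hcon
    push Not at hcon
    have h1 : (univ.map Function.Embedding.some : Finset (Option (Fin (m * k + 2)))) ⊆ W := by
      intro x hx
      obtain ⟨ω, _, rfl⟩ := mem_map.1 hx
      exact hcon ω
    have h2 := card_le_card h1
    rw [card_map, card_univ, Fintype.card_fin] at h2
    omega
  have hfree : ∀ q ∈ P, ∀ v b, ι (Sum.inr (Sum.inl (v, ω₁, b))) ∉ D q.1 := by
    intro q hq v b hmem
    apply hω₁
    rw [hW, mem_biUnion]
    refine ⟨q, hq, mem_image.2 ⟨_, hmem, ?_⟩⟩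
    rw [pinv_mem, hoc]
  -- the twisted instance
  obtain ⟨v₀, hv₀⟩ : ∃ v₀ : Fin (k + 1), v₀ = ⟨0, by omega⟩ := ⟨_, rfl⟩
  obtain ⟨w₀, hw₀⟩ : ∃ w₀ : Fin (k + 1), w₀ = ⟨1, by omega⟩ := ⟨_, rfl⟩
  have hvw : w₀ ≠ v₀ := by
    rw [hv₀, hw₀]
    intro h
    rw [Fin.mk.injEq] at h
    exact absurd h (by norm_num)
  obtain ⟨τ, hτ⟩ : ∃ τ : Fin (k + 1) → Fin (m * k + 2) → Fin (k + 1) → ZMod 2,
      ∀ v ω w, τ v ω w = if v = v₀ ∧ ω = ω₁ then (if w = w₀ then 1 else 0) else 0 :=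
    ⟨_, fun _ _ _ => rfl⟩
  have hτ0 : ∀ v ω, τ v ω v = 0 := by
    intro v ω
    rw [hτ]
    by_cases h : v = v₀ ∧ ω = ω₁
    · rw [if_pos h, if_neg (fun h' => hvw (h'.symm.trans h.1))]
    · rw [if_neg h]
  have hτs : ∑ w, τ v₀ ω₁ w = 1 := by
    rw [sum_congr rfl (fun w _ => by rw [hτ, if_pos ⟨rfl, rfl⟩]), sum_ite_eq' univ w₀,
      if_pos (mem_univ _)]
  have hτ1 : ∑ v, ∑ w, τ v ω₁ w = 1 := by
    rw [sum_eq_single v₀]
    · exact hτs
    · intro v _ hv
      refine sum_eq_zero fun w _ => ?_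
      rw [hτ, if_neg (fun h => hv h.1)]
    · intro h
      exact absurd (mem_univ _) h
  have hAt : At ω₁ v₀ τ := by
    refine ⟨?_, hτs⟩
    intro v ω w h
    rw [hτ]
    by_cases h1 : v = v₀ ∧ ω = ω₁
    · rw [if_pos h1]
      by_cases h2 : w = w₀
      · exact absurd ⟨h1.1, h1.2, by rw [h2]; exact hvw⟩ h
      · rw [if_neg h2]
    · rw [if_neg h1]
  -- the certificate is accepted
  have hPB : ∀ q ∈ P, C.val (graphInput b₀ b₁ (gr ι τ)) q.1 = q.2 := by
    intro q hq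
    rw [← hPA q hq]
    symm
    exact gate_blind (by omega) (by rw [Fintype.card_fin]; omega) ι H hι C b₀ b₁ D
      (fun g => by have := hD2 g; omega) hDH hD3 ω₁ q.1 v₀ (fun b => hfree q hq v₀ b) τ hAt
  obtain ⟨S, hS1, hS2⟩ := (hdec (gr ι τ)).1 ⟨P, hP, hPB⟩
  exact dom_no ι τ ω₁ (fun v => hτ0 v ω₁) hτ1 S hS1 hS2

end Pool.Agent.T9h47.WX
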